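import Pool.Agent.Helper5.LCU.Stmts

/-! Row CNV of the project LCU: convolution of log-concave sequences. -/

set_option autoImplicit false

open Finset
open Pool.Agent.Helper5.LCU

namespace Pool.Agent.Helper4.LCU

theorem sum_trunc (a b : ℕ → ℝ) (y M : ℕ) (h : y + 1 ≤ M) :
    ∑ s ∈ range M, a s * (if s ≤ y then b (y - s) else 0) =
      ∑ s ∈ range (y + 1), a s * b (y - s) := by
  rw [← Finset.sum_subset (Finset.range_subset_range.2 h)]
  · apply Finset.sum_congr rfl
    intro s hs
    rw [if_pos (Nat.lt_succ_iff.1 (Finset.mem_range.1 hs))]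
  · intro s _ hs
    rw [Finset.mem_range] at hs
    rw [if_neg (by omega), mul_zero]

theorem sum_shift (a b : ℕ → ℝ) (y M : ℕ) (h : y + 2 ≤ M) :
    ∑ s ∈ range M, (if s = 0 then 0 else a (s - 1)) * (if s ≤ y + 1 then b (y + 1 - s) else 0) =
      ∑ s ∈ range (y + 1), a s * b (y - s) := by
  obtain ⟨M', rfl⟩ : ∃ M', M = M' + 1 := ⟨M - 1, by omega⟩
  rw [Finset.sum_range_succ']
  rw [if_pos rfl, zero_mul, add_zero, ← sum_trunc a b y M' (by omega)]
  apply Finset.sum_congr rfl
  intro s _
  rw [if_neg (Nat.succ_ne_zero s), Nat.add_sub_cancel]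
  congr 1
  by_cases h1 : s ≤ y
  · rw [if_pos h1, if_pos (by omega)]
    congr 1
    omega
  · rw [if_neg h1, if_neg (by omega)]

theorem st_CNV (hCB : ST_CB) (hMAJ : ST_MAJ) : ST_CNV := by
  intro a b ha hb
  refine ⟨fun m => Finset.sum_nonneg fun i _ => mul_nonneg (ha.1 _) (hb.1 _), ?_⟩
  intro i j hij
  have h := hCB (j + 3) a (fun s => if s = 0 then 0 else a (s - 1))
    (fun s => if s ≤ i + 1 then b (i + 1 - s) else 0)
    (fun s => if s ≤ j + 2 then b (j + 2 - s) else 0) ?_ ?_
  · rw [sum_trunc a b (j + 2) (j + 3) (le_refl _), sum_trunc a b (i + 1) (j + 3) (by omega),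
      sum_shift a b i (j + 3) (by omega), sum_shift a b (j + 1) (j + 3) (by omega)] at h
    rw [mul_comm] at h
    exact h
  · intro s t hst _
    rw [if_neg (show t ≠ 0 by omega)]
    rcases Nat.eq_zero_or_pos s with h0 | h0
    · subst h0
      rw [if_pos rfl, mul_zero, sub_zero]
      exact mul_nonneg (ha.1 _) (ha.1 _)
    · rw [if_neg (by omega)]
      have h1 := ha.2 (s - 1) (t - 2) (by omega)
      have e1 : t - 2 + 2 = t := by omega
      have e2 : s - 1 + 1 = s := by omega
      have e3 : t - 2 + 1 = t - 1 := by omega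
      rw [e1, e2, e3] at h1
      linarith
  · intro s t hst ht
    by_cases h1 : t ≤ i + 1
    · rw [if_pos h1, if_pos (show s ≤ i + 1 by omega), if_pos (show s ≤ j + 2 by omega),
        if_pos (show t ≤ j + 2 by omega)]
      have h2 := hMAJ b hb (i + 1 - t) (j + 2 - s) (i + 1 - s) (j + 2 - t) (by omega) (by omega)
        (by omega)
      linarith
    · rw [if_neg h1, zero_mul, sub_zero]
      apply mul_nonneg
      · split_ifs
        · exact hb.1 _
        · exact le_refl _
      · split_ifs
        · exact hb.1 _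
        · exact le_refl _

end Pool.Agent.Helper4.LCU
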